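import Pool.Agent.R829.FC.B

/-!
# Strong uniform boundedness for rational maps with few places of bad reduction

For all `d ≥ 2`, `D` and `s`, the maps of degree `d` of the projective line which are not isotrivial
and have potentially good reduction outside some set of `s` places of a function field `K` (over any
field `k`, of any characteristic) satisfy the strong uniform boundedness principle: over an
extension `L` of `K` of degree at most `D` they have at most `C (D s + 1) log (D s + 2)` preperiodic
points, with `C` depending on `d` only.
-/

set_option autoImplicit false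

namespace Pool.Agent.Results.MP_9b502d_nt.FewBadPlaces

open Real Pool.Agent.H951R3.PB Pool.Agent.TH450.FG

universe u v w

/-- For every `d ≥ 2` there is `C` such that for every function field `K` of one variable over a
field `k` (a finite extension of `k(t)`), every extension `L` of `K` of degree at most `D`, every
finite set `S` of places of `K` (given by absolute values) and every map `f` of degree `d` of the
projective line over `L` which is not isotrivial and has potentially good reduction at all places of
`L` (nontrivial absolute values of `L` that are trivial on `k`) that do not lie over a place in `S`: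
any set `X` of vectors of `L²` representing distinct preperiodic points of `f` in the projective
line over `L` has at most `C * (D * #S + 1) * log (D * #S + 2)` elements. -/
theorem result (d : ℕ) (hd : 2 ≤ d) : ∃ C : ℝ, 0 < C ∧
    ∀ (k : Type v) (K : Type w) (L : Type u) [Field k] [Field K] [Field L] [Algebra k K]
      [Algebra k L] [Algebra K L] [IsScalarTower k K L] (t : K), Transcendental k t →
      FiniteDimensional (IntermediateField.adjoin k {t}) K → FiniteDimensional K L →
    ∀ D : ℕ, Module.finrank K L ≤ D →
    ∀ f : Fin 2 → MvPolynomial (Fin 2) L, (∀ i, (f i).IsHomogeneous d) →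
      (∀ x : Fin 2 → AlgebraicClosure L, (∀ i, MvPolynomial.aeval x (f i) = 0) → x = 0) →
      ¬ Isotrivial k d f →
    ∀ S : Finset (AbsoluteValue K ℝ),
      (∀ w : AbsoluteValue L ℝ, w.IsNontrivial → (∀ c : k, c ≠ 0 → w (algebraMap k L c) = 1) →
        (∀ v ∈ S, ¬ (w.comp (algebraMap K L).injective).IsEquiv v) → PotGood w d f) →
    ∀ X : Finset (Fin 2 → L), (∀ x ∈ X, x ≠ 0) →
      (∀ x ∈ X, ∀ y ∈ X, ∀ c : L, x = c • y → x = y) →
      (∀ x ∈ X, ∃ m n : ℕ, m < n ∧ ∃ c : L, c ≠ 0 ∧
        (fun v : Fin 2 → L => fun i => MvPolynomial.eval v (f i))^[n] x =
          c • (fun v : Fin 2 → L => fun i => MvPolynomial.eval v (f i))^[m] x) →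
      (X.card : ℝ) ≤ C * (D * S.card + 1) * log (D * S.card + 2) :=
  Pool.Agent.R829.FC.main_ext d hd

end Pool.Agent.Results.MP_9b502d_nt.FewBadPlaces
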