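import Mathlib
import Pool.Agent.R437.FF.Gen
import Pool.Agent.R437.FF.Low

/-!
# Rational maps `c + P / Q ^ m`: no preperiodic points of small degree besides the poles

Let `k` be any field, of any characteristic, `K = k(t)`, and let `c` in `K` have a pole at the prime
`π` of `k[t]`, of order `n`. Let `P`, `Q` be polynomials over `K` with coefficients which are
integral at `π` and leading coefficients which are units at `π`, coprime modulo `π`, such that
`e = deg P - m deg Q` is positive and `n` is prime to `m` and to `e`. Then in every extension `L` of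
`K` of degree less than `m` and `e` the map `f = c + P / Q ^ m`, of degree `deg P`, has no preperiodic
point besides `∞` and its poles.

(At a place above `π` the values of `P / Q ^ m` never have the absolute value of `c`, so all points
are mapped outside the disc of radius `|c|`, and from there they escape to infinity.)

If `k` is finite, then for all `c` in `K` of height at most `B`, up to a proportion of at most
`(B + 1) ^ 3 q ^ (1 - (1 - κ) B / 2)`, this is true for ALL maps `f = c + P / Q ^ m` with
`deg P ≥ m (deg Q + 1)`, of every degree and for every `m`, for which the sum of the degrees of the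
bad primes of `P`, `Q` is at most `κ` times the height of `c`.
-/

set_option autoImplicit false

namespace Pool.Agent.Results.MP_9b502d_nt.GenericConstantTerm

open Polynomial Pool.Agent.R437.FF

variable {k : Type} [Field k]

/-- The sum of the degrees of the primes in `T` is at most `κ h(c)`, and `T` contains all (monic)
primes at which `P`, `Q` are not good. -/
def FewBad (κ : ℝ) (c : RatFunc k) (P Q : (RatFunc k)[X]) (T : Finset k[X]) : Prop :=
  ((∑ π ∈ T, π.natDegree : ℕ) : ℝ) ≤ κ * ht c ∧
    ∀ π : k[X], π.Monic → Irreducible π → π ∉ T → GoodAt π P Q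

/-- All maps `c + P / Q ^ m` with `deg P ≥ m (deg Q + 1)` and few bad primes have no preperiodic
points besides `∞` and the poles in the extensions of degree less than `m`. -/
def Pushes (κ : ℝ) (c : RatFunc k) : Prop :=
  ∀ (P Q : (RatFunc k)[X]) (T : Finset k[X]), FewBad κ c P Q T →
    ∀ m : ℕ, m * (Q.natDegree + 1) ≤ P.natDegree →
      ∀ (L : Type) [Field L] [Algebra (RatFunc k) L] [FiniteDimensional (RatFunc k) L],
        Module.finrank (RatFunc k) L < m → OnlyPoles c P Q m L

theorem exc_sub {κ : ℝ} {c : RatFunc k} (hκ : ¬ Pushes κ c) [DecidableEq k] :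
    ((∑ p ∈ simplePrimes c.denom, p.natDegree : ℕ) : ℝ) ≤ κ * ht c := by
  classical
  unfold Pushes at hκ
  push Not at hκ
  obtain ⟨P, Q, T, ⟨hT1, hT2⟩, m, hm, L, i1, i2, i3, hL, hbad⟩ := hκ
  have hL1 : 1 ≤ Module.finrank (RatFunc k) L := Module.finrank_pos
  have hsub : simplePrimes c.denom ⊆ T := by
    intro p hp
    by_contra hpT
    obtain ⟨h1, h2, h3, h4⟩ := mem_simple (RatFunc.denom_ne_zero c) hp
    apply hbad
    refine onlyPoles h2 le_rfl h3 h4 (hT2 p h1 h2 hpT) (m := m)
      (e := P.natDegree - m * Q.natDegree) ?_ (Nat.coprime_one_left m) (Nat.coprime_one_left _) L hL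
      ?_
    · rw [mul_add, mul_one] at hm
      omega
    · rw [mul_add, mul_one] at hm
      omega
  refine le_trans ?_ hT1
  exact_mod_cast Finset.sum_le_sum_of_subset hsub

/-- **Theorem.** (1) Let `k` be any field, `π` irreducible in `k[t]`, `c` in `k(t)` with a pole of
order `n ≥ 1` at `π`, `P` and `Q` polynomials over `k(t)` which are good at `π`, with
`deg P = m deg Q + e`, `n` prime to `m` and to `e`, and `L` an extension of `k(t)` of degree less than
`m` and less than `e`. Then the only points of the projective line over `L` with a finite orbit under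
`c + P / Q ^ m` are `∞` and the zeros of `Q` in `L`.
(2) Let `k` be finite with `q` elements, `κ` real and `B` a natural number. There are at least
`q ^ (2 B)` elements `c` of `k(t)` of height at most `B`, and all of them except for a proportion of
at most `(B + 1) ^ 3 q ^ (1 - (1 - κ) B / 2)` have the property `Pushes κ`. -/
theorem result :
    (∀ (k : Type) [Field k] (π : k[X]) (c : RatFunc k) (P Q : (RatFunc k)[X]) (n m e : ℕ),
      Irreducible π → 1 ≤ n → π ^ n ∣ c.denom → ¬ π ^ (n + 1) ∣ c.denom → GoodAt π P Q →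
      P.natDegree = m * Q.natDegree + e → n.Coprime m → n.Coprime e →
      ∀ (L : Type) [Field L] [Algebra (RatFunc k) L] [FiniteDimensional (RatFunc k) L],
        Module.finrank (RatFunc k) L < m → Module.finrank (RatFunc k) L < e →
          OnlyPoles c P Q m L) ∧
    (∀ (k : Type) [Field k] [Fintype k] (κ : ℝ) (B : ℕ), 0 ≤ κ →
      Fintype.card k ^ (2 * B) ≤ {c : RatFunc k | ht c ≤ B}.ncard ∧
      ({c : RatFunc k | ht c ≤ B ∧ ¬ Pushes κ c}.ncard : ℝ) ≤
        (B + 1) ^ 3 * (Fintype.card k : ℝ) ^ (1 - (1 - κ) / 2 * B) *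
          {c : RatFunc k | ht c ≤ B}.ncard) := by
  classical
  refine ⟨fun k _ π c P Q n m e hπ hn h1 h2 hg hd hnm hne L _ _ _ h3 h4 =>
    onlyPoles hπ hn h1 h2 hg hd hnm hne L h3 h4, fun k _ _ κ B hκ => ⟨low B, ?_⟩⟩
  have hq1 : (1 : ℝ) < Fintype.card k := by exact_mod_cast Fintype.one_lt_card
  have hq0 : (0 : ℝ) < Fintype.card k := by linarith
  have h1 : ({c : RatFunc k | ht c ≤ B ∧ ¬ Pushes κ c}.ncard : ℝ) ≤
      ({c : RatFunc k | ht c ≤ B ∧ ((∑ p ∈ simplePrimes c.denom, p.natDegree : ℕ) : ℝ) ≤
        κ * B}.ncard : ℝ) := by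
    have hsub : {c : RatFunc k | ht c ≤ B ∧ ¬ Pushes κ c} ⊆ {c : RatFunc k | ht c ≤ B ∧
        ((∑ p ∈ simplePrimes c.denom, p.natDegree : ℕ) : ℝ) ≤ κ * B} := by
      rintro c ⟨hc1, hc2⟩
      refine ⟨hc1, (exc_sub hc2).trans ?_⟩
      exact mul_le_mul_of_nonneg_left (by exact_mod_cast hc1) hκ
    exact_mod_cast Set.ncard_le_ncard hsub ((finite_ht B).subset fun c hc => hc.1)
  refine h1.trans ((count_exc B κ).trans ?_)
  have h2 : (Fintype.card k : ℝ) ^ ((3 + κ) / 2 * B + 1) =
      (Fintype.card k : ℝ) ^ (1 - (1 - κ) / 2 * B) * (Fintype.card k : ℝ) ^ (2 * B) := by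
    rw [← Real.rpow_natCast, ← Real.rpow_add hq0]
    congr 1
    push_cast
    ring
  rw [h2, ← mul_assoc]
  refine mul_le_mul_of_nonneg_left ?_ (by positivity)
  exact_mod_cast low (k := k) B

end Pool.Agent.Results.MP_9b502d_nt.GenericConstantTerm
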