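import Pool.Agent.R414.FF.H

/-!
# Statistics of preperiodic points over `F_q(t)`

`F` is a finite field with `q` elements, `Om F` an algebraic closure of `F(t)`. `Mon F d n` is the
set of monic `f` in `F[t][x]` of degree `d` in `x` with coefficients of degree `< n` in `t`;
`Pre D f` is the set of preperiodic points of `f` in `Om F` of degree at most `D` over `F(t)`;
`Isotriv f`: `f` is conjugate by an affine map over `Om F` to a polynomial with coefficients
algebraic over `F`. `Adm F D k` is the set of pairs `(M, r)` of polynomials over `F[t]`, `M` monic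
of degree `k` with `k` distinct roots, all of degree at most `D` over `F(t)`, `deg r < k`, such that
`r` maps roots of `M` to roots of `M`; its weight `wt F a (M, r)` is `q ^ (-a deg_t M)`.
-/

set_option autoImplicit false

open Polynomial Filter Topology Pool.Agent.R414.FF

namespace Pool.Agent.Results.MP_9b502d_nt.PreperiodicPointsLaw

/-- For all `D, k ≥ 1` and `d ≥ d₀` put `κ = ∑ q ^ (-(d-k) deg_t M)` over the `(M, r)` in
`Adm F D k` (a convergent sum). As `n → ∞`, the number of nonisotrivial `f` in `Mon F d n` with at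
least `k` preperiodic points of degree at most `D` is `(κ + o(1)) q ^ ((d-k) n)`; the proportion of
those with exactly `k` tends to `1`; the proportion of those for which the set is the set of roots
of `M` and `f` acts on it as `r` tends to `q ^ (-(d-k) deg_t M) / κ`; and the isotrivial `f` with a
preperiodic point of degree at most `D` are negligible. -/
theorem result (F : Type) [Field F] [Fintype F] (D k : ℕ) (hD : 1 ≤ D) (hk : 1 ≤ k) :
    ∃ d₀ : ℕ, ∀ d : ℕ, d₀ ≤ d →
    (Summable fun p : Adm F D k => wt F (d - k) p.1) ∧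
    0 < (∑' p : Adm F D k, wt F (d - k) p.1) ∧
    Tendsto (fun n : ℕ => (({f | f ∈ Mon F d n ∧ ¬ Isotriv f ∧ k ≤ (Pre D f).ncard}.ncard : ℝ) /
      (Fintype.card F : ℝ) ^ ((d - k) * n))) atTop (𝓝 (∑' p : Adm F D k, wt F (d - k) p.1)) ∧
    Tendsto (fun n : ℕ => (({f | f ∈ Mon F d n ∧ ¬ Isotriv f ∧ (Pre D f).ncard = k}.ncard : ℝ) /
      ({f | f ∈ Mon F d n ∧ ¬ Isotriv f ∧ k ≤ (Pre D f).ncard}.ncard : ℝ))) atTop (𝓝 1) ∧
    (∀ p ∈ Adm F D k, Tendsto (fun n : ℕ =>
      (({f | f ∈ Mon F d n ∧ ¬ Isotriv f ∧ Pre D f = Rt p.1 ∧ p.1 ∣ f - p.2}.ncard : ℝ) /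
      ({f | f ∈ Mon F d n ∧ ¬ Isotriv f ∧ k ≤ (Pre D f).ncard}.ncard : ℝ))) atTop
      (𝓝 (wt F (d - k) p / ∑' p : Adm F D k, wt F (d - k) p.1))) ∧
    Tendsto (fun n : ℕ => (({f | f ∈ Mon F d n ∧ Isotriv f ∧ (Pre D f).Nonempty}.ncard : ℝ) /
      (Fintype.card F : ℝ) ^ ((d - k) * n))) atTop (𝓝 0) :=
  final D k hD hk

end Pool.Agent.Results.MP_9b502d_nt.PreperiodicPointsLaw
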