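import Pool.Agent.R414.FG.K

/-!
# Rational maps over `F_q(t)` with many preperiodic points

`F` is a finite field with `q` elements, `t` the variable of `F[X]`. `RatS F d n` is the set of the
pairs `f = (p, r)` of polynomials in `F[t][x]` of degree at most `d` in `x`, regarded as binary
forms of degree `d`, with coefficients of degree `< n` in `t` and with nonzero resultant: these are
the rational maps `p / r` of degree `d` of the projective line over `F(t)`, written with integral
coordinates of height `< n`. `Pt F` is the projective line over `F(t)` in normalized coordinates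
(coprime pairs of polynomials with monic second entry, and `(1, 0)`), `ract d f` the action of `f`
on coordinates, and `PreR d f` the set of the points of `Pt F` two iterates of which agree in the
projective line, that is, of the preperiodic points of `f` in the projective line over `F(t)`.
`IsoR d f`: `f` is isotrivial, that is, conjugate by an invertible matrix over the algebraic closure
`Om F` of `F(t)`, up to a scalar, to a pair of forms with coefficients algebraic over `F`.
-/

set_option autoImplicit false

open Polynomial Filter Topology Pool.Agent.R414.FF Pool.Agent.R414.FG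

namespace Pool.Agent.Results.MP_9b502d_nt.RationalMapsCount

/-- Let `d ≥ 21 k + 26`. All `f` in `RatS F d n` have finitely many preperiodic points in the
projective line over `F(t)`; for all `n` at most `2 q ^ (4 k) q ^ ((2 d + 2 - k) n)` of them have at
least `k` of these points, and for large `n` at least `c q ^ ((2 d + 2 - k) n)`, `c > 0`; and of
those with at least `k` points, the proportion with exactly `k` tends to `1`. For `k ≥ 1` the same
holds for the non-isotrivial maps. -/
theorem result (F : Type) [Field F] [Fintype F] (k d : ℕ) (hd : 21 * k + 26 ≤ d) :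
    (∀ n, (RatS F d n).Finite ∧ ∀ f ∈ RatS F d n, (PreR d f).Finite) ∧
    (∀ n : ℕ, ({f | f ∈ RatS F d n ∧ k ≤ (PreR d f).ncard}.ncard : ℝ) ≤
      2 * (Fintype.card F : ℝ) ^ (4 * k) * (Fintype.card F : ℝ) ^ ((2 * d + 2 - k) * n)) ∧
    (∃ c : ℝ, 0 < c ∧ ∀ᶠ n : ℕ in atTop, c * (Fintype.card F : ℝ) ^ ((2 * d + 2 - k) * n) ≤
      ({f | f ∈ RatS F d n ∧ k ≤ (PreR d f).ncard}.ncard : ℝ)) ∧
    Tendsto (fun n : ℕ => ({f | f ∈ RatS F d n ∧ (PreR d f).ncard = k}.ncard : ℝ) /
      ({f | f ∈ RatS F d n ∧ k ≤ (PreR d f).ncard}.ncard : ℝ)) atTop (𝓝 1) ∧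
    (1 ≤ k →
      (∃ c : ℝ, 0 < c ∧ ∀ᶠ n : ℕ in atTop, c * (Fintype.card F : ℝ) ^ ((2 * d + 2 - k) * n) ≤
        ({f | f ∈ RatS F d n ∧ ¬ IsoR d f ∧ k ≤ (PreR d f).ncard}.ncard : ℝ)) ∧
      Tendsto (fun n : ℕ => ({f | f ∈ RatS F d n ∧ ¬ IsoR d f ∧ (PreR d f).ncard = k}.ncard : ℝ) /
        ({f | f ∈ RatS F d n ∧ ¬ IsoR d f ∧ k ≤ (PreR d f).ncard}.ncard : ℝ)) atTop (𝓝 1)) :=
  ⟨(final k d hd).1, (final k d hd).2.1, (final k d hd).2.2.1, (final k d hd).2.2.2,
    fun hk => final' k d hk hd⟩

end Pool.Agent.Results.MP_9b502d_nt.RationalMapsCount
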